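import Mathlib

set_option autoImplicit false

open Set Module
open scoped RealInnerProductSpace

namespace Pool.Agent.H892R2.Tomo

variable {d : ℕ}


/-- A facet of a polyhedron `{x | ⟪a k, x⟫ ≤ b k}` is cut out by one of the inequalities. -/
theorem facet_eq {ι : Type*} [Fintype ι] (a : ι → EuclideanSpace ℝ (Fin d)) (b : ι → ℝ)
    (ha : ∀ k, a k ≠ 0) (P F : Set (EuclideanSpace ℝ (Fin d)))
    (hP : P = {x | ∀ k, ⟪a k, x⟫ ≤ b k})
    (u : EuclideanSpace ℝ (Fin d)) (h : ℝ) (hu : u ≠ 0) (hs : ∀ x ∈ P, ⟪u, x⟫ ≤ h)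
    (hF : F = {x | x ∈ P ∧ ⟪u, x⟫ = h}) (hne : F.Nonempty)
    (hdim : finrank ℝ (vectorSpan ℝ F) + 1 = d) :
    ∃ k, F = {x | x ∈ P ∧ ⟪a k, x⟫ = b k} := by
  classical
  -- the set of tight constraints at a point
  let K : EuclideanSpace ℝ (Fin d) → Finset ι := fun x => Finset.univ.filter fun k => ⟪a k, x⟫ = b k
  obtain ⟨x0, hx0F, hmin⟩ : ∃ x0 ∈ F, ∀ y ∈ F, (K x0).card ≤ (K y).card := by
    obtain ⟨y0, hy0⟩ := hne
    have hn : ((fun y => (K y).card) '' F).Nonempty := ⟨_, y0, hy0, rfl⟩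
    obtain ⟨x0, hx0, hx1⟩ := Nat.sInf_mem hn
    refine ⟨x0, hx0, fun y hy => ?_⟩
    have := Nat.sInf_le (show (K y).card ∈ (fun y => (K y).card) '' F from ⟨y, hy, rfl⟩)
    simp only at hx1
    omega
  have hx0P : x0 ∈ P := by rw [hF] at hx0F; exact hx0F.1
  have hx0u : ⟪u, x0⟫ = h := by rw [hF] at hx0F; exact hx0F.2
  -- tight set nonempty
  have hKne : (K x0).Nonempty := by
    by_contra hemp
    rw [Finset.not_nonempty_iff_eq_empty] at hemp
    have hstrict : ∀ k, ⟪a k, x0⟫ < b k := by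
      intro k
      have h1 : ⟪a k, x0⟫ ≤ b k := by rw [hP] at hx0P; exact hx0P k
      refine lt_of_le_of_ne h1 fun he => ?_
      have : k ∈ K x0 := by simp [K, he]
      rw [hemp] at this
      simp at this
    have hopen : IsOpen {x : EuclideanSpace ℝ (Fin d) | ∀ k, ⟪a k, x⟫ < b k} := by
      have : {x : EuclideanSpace ℝ (Fin d) | ∀ k, ⟪a k, x⟫ < b k} =
          ⋂ k, {x | ⟪a k, x⟫ < b k} := by ext; simp
      rw [this]
      exact isOpen_iInter_of_finite fun k => isOpen_lt (by fun_prop) (by fun_prop)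
    have hcont : Continuous fun t : ℝ => x0 + t • u := by fun_prop
    have hmem : (fun t : ℝ => x0 + t • u) ⁻¹' {x | ∀ k, ⟪a k, x⟫ < b k} ∈ nhds (0:ℝ) := by
      apply (hopen.preimage hcont).mem_nhds
      simpa using hstrict
    obtain ⟨ε, hε, hball⟩ := Metric.mem_nhds_iff.mp hmem
    have h2 : (ε / 2) ∈ Metric.ball (0:ℝ) ε := by
      rw [Metric.mem_ball, Real.dist_eq, sub_zero, abs_of_pos (by linarith)]
      linarith
    have h3 := hball h2
    have h4 : x0 + (ε / 2) • u ∈ P := by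
      rw [hP]; exact fun k => (h3 k).le
    have h5 := hs _ h4
    rw [inner_add_right, inner_smul_right, hx0u, real_inner_self_eq_norm_sq] at h5
    have h6 : 0 < ‖u‖ ^ 2 := by positivity
    nlinarith
  obtain ⟨k, hk⟩ := hKne
  have hkx0 : ⟪a k, x0⟫ = b k := by simpa [K] using hk
  have hall : ∀ y ∈ F, ⟪a k, y⟫ = b k := by
    intro y hy
    have hyP : y ∈ P := by rw [hF] at hy; exact hy.1
    have hyu : ⟪u, y⟫ = h := by rw [hF] at hy; exact hy.2
    set z := (1/2 : ℝ) • x0 + (1/2 : ℝ) • y with hz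
    have hzin : ∀ w, ⟪w, z⟫ = (⟪w, x0⟫ + ⟪w, y⟫) / 2 := by
      intro w
      rw [hz, inner_add_right, inner_smul_right, inner_smul_right]; ring
    have hzP : z ∈ P := by
      rw [hP] at hx0P hyP ⊢
      intro j
      rw [hzin]
      have h1 := hx0P j
      have h2 := hyP j
      linarith
    have hzF : z ∈ F := by
      rw [hF]; exact ⟨hzP, by rw [hzin, hx0u, hyu]; ring⟩
    have hsub : K z ⊆ K x0 := by
      intro j hj
      have h1 : ⟪a j, z⟫ = b j := by simpa [K] using hj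
      rw [hzin] at h1
      have h2 : ⟪a j, x0⟫ ≤ b j := by rw [hP] at hx0P; exact hx0P j
      have h3 : ⟪a j, y⟫ ≤ b j := by rw [hP] at hyP; exact hyP j
      have : ⟪a j, x0⟫ = b j := by linarith
      simpa [K] using this
    have heq : K z = K x0 := Finset.eq_of_subset_of_card_le hsub (hmin z hzF)
    have h1 : k ∈ K z := by rw [heq]; exact hk
    have h2 : ⟪a k, z⟫ = b k := by simpa [K] using h1
    rw [hzin, hkx0] at h2
    linarith
  -- direction spaces
  have hsub : ∀ (w : EuclideanSpace ℝ (Fin d)) (c : ℝ), (∀ y ∈ F, ⟪w, y⟫ = c) →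
      vectorSpan ℝ F ≤ (ℝ ∙ w)ᗮ := by
    intro w c hw
    rw [vectorSpan_def, Submodule.span_le]
    rintro _ ⟨y, hy, z, hz, rfl⟩
    rw [SetLike.mem_coe, Submodule.mem_orthogonal_singleton_iff_inner_right]
    simp only [vsub_eq_sub]
    rw [inner_sub_right, hw y hy, hw z hz, sub_self]
  have h1 := hsub u h (fun y hy => by rw [hF] at hy; exact hy.2)
  have h2 := hsub (a k) (b k) hall
  have hfr : ∀ w : EuclideanSpace ℝ (Fin d), w ≠ 0 → finrank ℝ (ℝ ∙ w)ᗮ + 1 = d := by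
    intro w hw
    have h3 := Submodule.finrank_add_finrank_orthogonal (ℝ ∙ w)
    rw [finrank_span_singleton hw, finrank_euclideanSpace_fin] at h3
    omega
  have e1 : vectorSpan ℝ F = (ℝ ∙ u)ᗮ := Submodule.eq_of_le_of_finrank_eq h1 (by
    have := hfr u hu; omega)
  have e2 : vectorSpan ℝ F = (ℝ ∙ (a k))ᗮ := Submodule.eq_of_le_of_finrank_eq h2 (by
    have := hfr (a k) (ha k); omega)
  have e3 : (ℝ ∙ u) = (ℝ ∙ (a k)) := by
    have := congrArg Submodule.orthogonal (e1.symm.trans e2)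
    rwa [Submodule.orthogonal_orthogonal, Submodule.orthogonal_orthogonal] at this
  obtain ⟨c, hc⟩ : ∃ c : ℝ, c • a k = u := by
    have : u ∈ (ℝ ∙ (a k)) := by rw [← e3]; exact Submodule.mem_span_singleton_self u
    exact Submodule.mem_span_singleton.mp this
  refine ⟨k, ?_⟩
  ext y
  constructor
  · intro hy
    exact ⟨by rw [hF] at hy; exact hy.1, hall y hy⟩
  · rintro ⟨hyP, hyk⟩
    rw [hF]
    refine ⟨hyP, ?_⟩
    rw [← hc, inner_smul_left] at hx0u ⊢
    rw [hkx0] at hx0u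
    rw [hyk]
    exact hx0u

end Pool.Agent.H892R2.Tomo
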