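import Mathlib

set_option autoImplicit false

open Set Module MeasureTheory
open scoped RealInnerProductSpace ENNReal

namespace Pool.Agent.H892R2.Tomo

theorem mp_slice {n : ℕ} (ξ : EuclideanSpace ℝ (Fin n)) (hξ : ‖ξ‖ = 1) :
    MeasurePreserving (fun p : ℝ × (ℝ ∙ ξ)ᗮ => p.1 • ξ + (p.2 : EuclideanSpace ℝ (Fin n)))
      ((volume : Measure ℝ).prod volume) volume := by
  have h1 : MeasurePreserving (LinearIsometryEquiv.toSpanUnitSingleton (𝕜 := ℝ) ξ hξ)
      (volume : Measure ℝ) (volume : Measure (ℝ ∙ ξ)) :=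
    LinearIsometryEquiv.measurePreserving _
  have h2 := h1.prod (MeasurePreserving.id (volume : Measure (ℝ ∙ ξ)ᗮ))
  have h3 := WithLp.volume_preserving_toLp (ℝ ∙ ξ) (ℝ ∙ ξ)ᗮ
  have h4 := (ℝ ∙ ξ).orthogonalDecomposition.symm.measurePreserving
  have h5 := h4.comp (h3.comp h2)
  have h6 : (fun p : ℝ × (ℝ ∙ ξ)ᗮ => p.1 • ξ + (p.2 : EuclideanSpace ℝ (Fin n))) =
      (ℝ ∙ ξ).orthogonalDecomposition.symm ∘ (WithLp.toLp 2) ∘
        (Prod.map (LinearIsometryEquiv.toSpanUnitSingleton (𝕜 := ℝ) ξ hξ) id) := by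
    funext p
    simp [Submodule.orthogonalDecomposition_symm_apply]
  rw [h6]
  exact h5

/-- the one-dimensional exponential integral -/
theorem exp_int (c u : ℝ) (hc : 0 < c) (ε : ℝ) (hε : ε = 1 ∨ ε = -1) (hu : 0 ≤ u) :
    ∫ x, (Icc (-u) u).indicator (fun x => Real.exp (c * ε * x)) x ≤ Real.exp (c * u) / c := by
  rw [integral_indicator measurableSet_Icc, integral_Icc_eq_integral_Ioc,
    ← intervalIntegral.integral_of_le (by linarith)]
  have hne : c * ε ≠ 0 := by
    rcases hε with h | h <;> rw [h] <;> simp [hc.ne']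
  have h1 : ∫ x in (-u)..u, Real.exp (c * ε * x) =
      (Real.exp (c * ε * u) - Real.exp (c * ε * (-u))) / (c * ε) := by
    rw [intervalIntegral.integral_comp_mul_left (fun x => Real.exp x) hne, integral_exp]
    rw [smul_eq_mul]
    field_simp
  rw [h1]
  rcases hε with h | h
  · rw [h]
    have := Real.exp_pos (c * 1 * (-u))
    simp only [mul_one] at *
    gcongr
    linarith
  · rw [h]
    have h2 : (Real.exp (c * -1 * u) - Real.exp (c * -1 * (-u))) / (c * -1) =
        (Real.exp (c * u) - Real.exp (-(c * u))) / c := by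
      rw [show c * -1 * u = -(c * u) by ring, show c * -1 * -u = c * u by ring]
      field_simp
      ring
    rw [h2]
    have := Real.exp_pos (-(c * u))
    gcongr
    linarith

theorem sum_abs_le {d : ℕ} (θ : EuclideanSpace ℝ (Fin d)) (hθ : ‖θ‖ = 1) :
    ∑ j, |θ j| ≤ √d := by
  have h1 : (∑ j, |θ j|) ^ 2 ≤ d * ∑ j, |θ j| ^ 2 := by
    have := sq_sum_le_card_mul_sum_sq (s := (Finset.univ : Finset (Fin d))) (f := fun j => |θ j|)
    simpa using this
  have h2 : ∑ j, |θ j| ^ 2 = 1 := by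
    have := EuclideanSpace.norm_sq_eq θ
    rw [hθ] at this
    simp only [Real.norm_eq_abs] at this
    rw [← this]; norm_num
  rw [h2, mul_one] at h1
  exact Real.le_sqrt_of_sq_le h1

/-- the exponential bound for a box cut by a half space far from the origin -/
theorem box_bound {d : ℕ} (θ : Fin d → ℝ) (hθ : ∑ j, |θ j| ≤ √d) (s : ℝ) (hs : 0 < s)
    (ε : Fin d → ℝ) (hε : ∀ j, ε j = 1 ∨ ε j = -1) :
    volume {x : Fin d → ℝ | (∀ j, |x j| ≤ s * (1 + |θ j|)) ∧
      s * (3 / 4 * d - √d) ≤ ∑ j, ε j * x j} ≤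
      ENNReal.ofReal (s ^ d * (Real.exp (d + 8 * √d) / 4 ^ d)) := by
  set u : Fin d → ℝ := fun j => s * (1 + |θ j|) with hu
  have hu0 : ∀ j, 0 ≤ u j := fun j => by rw [hu]; positivity
  set c : ℝ := 4 / s with hc
  have hc0 : 0 < c := by rw [hc]; positivity
  set f : Fin d → ℝ → ℝ := fun j => (Icc (-(u j)) (u j)).indicator
    (fun x => Real.exp (c * ε j * x)) with hf
  have hf0 : ∀ j x, 0 ≤ f j x := fun j x => by
    rw [hf]; exact indicator_nonneg (fun _ _ => (Real.exp_pos _).le) _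
  have hfi : ∀ j, Integrable (f j) := fun j => by
    rw [hf]
    simp only
    rw [integrable_indicator_iff measurableSet_Icc]
    exact (Continuous.continuousOn (by fun_prop)).integrableOn_compact isCompact_Icc
  have hint : Integrable (fun x : Fin d → ℝ => ∏ j, f j (x j)) :=
    Integrable.fintype_prod hfi
  have hnn : 0 ≤ᵐ[volume] (fun x : Fin d → ℝ => ∏ j, f j (x j)) :=
    Filter.Eventually.of_forall fun x => Finset.prod_nonneg fun j _ => hf0 j _
  set M : ℝ := Real.exp (3 * d - 4 * √d) with hM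
  have hmk := mul_meas_ge_le_integral_of_nonneg hnn hint M
  have hI : ∫ x : Fin d → ℝ, ∏ j, f j (x j) ≤ Real.exp (4 * d + 4 * √d) * (s / 4) ^ d := by
    rw [integral_fintype_prod_volume_eq_prod]
    calc ∏ j, ∫ x, f j x ≤ ∏ j, (Real.exp (c * u j) / c) :=
          Finset.prod_le_prod (fun j _ => integral_nonneg (hf0 j))
            (fun j _ => exp_int c (u j) hc0 (ε j) (hε j) (hu0 j))
      _ = Real.exp (∑ j, c * u j) * (s / 4) ^ d := by
          rw [Finset.prod_div_distrib, ← Real.exp_sum]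
          simp only [Finset.prod_const, Finset.card_univ, Fintype.card_fin]
          rw [hc, div_eq_mul_inv, ← inv_pow, inv_div]
      _ ≤ _ := by
          gcongr
          have h1 : ∀ j, c * u j = 4 + 4 * |θ j| := fun j => by
            rw [hc, hu]; field_simp
          simp only [h1]
          rw [Finset.sum_add_distrib, ← Finset.mul_sum]
          simp only [Finset.sum_const, Finset.card_univ, Fintype.card_fin, nsmul_eq_mul]
          linarith
  have hsub : {x : Fin d → ℝ | (∀ j, |x j| ≤ s * (1 + |θ j|)) ∧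
      s * (3 / 4 * d - √d) ≤ ∑ j, ε j * x j} ⊆ {x | M ≤ ∏ j, f j (x j)} := by
    rintro x ⟨hx1, hx2⟩
    have h1 : ∏ j, f j (x j) = Real.exp (∑ j, c * ε j * x j) := by
      rw [Real.exp_sum]
      refine Finset.prod_congr rfl fun j _ => ?_
      rw [hf]
      simp only
      rw [indicator_of_mem]
      exact abs_le.mp (hx1 j)
    simp only [mem_ofPred_eq]
    rw [h1, hM]
    apply Real.exp_le_exp.mpr
    have h2 : ∑ j, c * ε j * x j = c * ∑ j, ε j * x j := by
      rw [Finset.mul_sum]; exact Finset.sum_congr rfl fun j _ => by ring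
    rw [h2]
    calc 3 * (d:ℝ) - 4 * √d = c * (s * (3 / 4 * d - √d)) := by
          rw [hc]; field_simp
      _ ≤ _ := by gcongr
  have hfin : volume {x : Fin d → ℝ | M ≤ ∏ j, f j (x j)} ≠ ⊤ :=
    (hint.measure_ge_lt_top (Real.exp_pos _)).ne
  calc _ ≤ volume {x : Fin d → ℝ | M ≤ ∏ j, f j (x j)} := measure_mono hsub
    _ = ENNReal.ofReal (volume.real {x : Fin d → ℝ | M ≤ ∏ j, f j (x j)}) := by
        rw [ofReal_measureReal hfin]
    _ ≤ _ := by
        apply ENNReal.ofReal_le_ofReal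
        have hM0 : 0 < M := Real.exp_pos _
        rw [← mul_le_mul_iff_right₀ hM0]
        refine (hmk.trans hI).trans (le_of_eq ?_)
        rw [hM, div_pow]
        have : Real.exp (4 * d + 4 * √d) = Real.exp (3 * d - 4 * √d) * Real.exp (d + 8 * √d) := by
          rw [← Real.exp_add]; congr 1; ring
        rw [this]
        ring

/-- volume of the section of a set by `θ^⊥` -/
noncomputable def sec {d : ℕ} (P : Set (EuclideanSpace ℝ (Fin d)))
    (θ : EuclideanSpace ℝ (Fin d)) : ℝ≥0∞ :=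
  volume {y : (ℝ ∙ θ)ᗮ | (y : EuclideanSpace ℝ (Fin d)) ∈ P}

theorem sec_bound {d : ℕ} (θ : EuclideanSpace ℝ (Fin d)) (hθ : ‖θ‖ = 1) (s : ℝ) (hs : 0 < s)
    (ε : Fin d → ℝ) (hε : ∀ j, ε j = 1 ∨ ε j = -1) :
    ENNReal.ofReal s * sec {x | (∀ j, |x j| ≤ s) ∧ s * (3 / 4 * d) ≤ ∑ j, ε j * x j} θ ≤
      ENNReal.ofReal (s ^ d * (Real.exp (d + 8 * √d) / 4 ^ d)) := by
  set A : Set (Fin d → ℝ) := {x : Fin d → ℝ | (∀ j, |x j| ≤ s * (1 + |θ j|)) ∧
      s * (3 / 4 * d - √d) ≤ ∑ j, ε j * x j} with hA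
  have hAm : MeasurableSet A := by
    have h1 : IsClosed A := by
      rw [hA]
      refine IsClosed.and ?_ ?_
      · have : {x : Fin d → ℝ | ∀ j, |x j| ≤ s * (1 + |θ j|)} =
            ⋂ j, {x : Fin d → ℝ | |x j| ≤ s * (1 + |θ j|)} := by ext; simp
        rw [this]
        exact isClosed_iInter fun j => isClosed_le (by fun_prop) (by fun_prop)
      · exact isClosed_le (by fun_prop) (by fun_prop)
    exact h1.measurableSet
  set B : Set (EuclideanSpace ℝ (Fin d)) := (WithLp.ofLp) ⁻¹' A with hB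
  have hvB : volume B = volume A :=
    (PiLp.volume_preserving_ofLp (Fin d)).measure_preimage hAm.nullMeasurableSet
  have hθ1 := sum_abs_le θ hθ
  have hsl := mp_slice θ hθ
  have hBm : MeasurableSet B := (PiLp.volume_preserving_ofLp (Fin d)).measurable hAm
  have hpre : ((volume : Measure ℝ).prod volume) ((fun p : ℝ × (ℝ ∙ θ)ᗮ =>
      p.1 • θ + (p.2 : EuclideanSpace ℝ (Fin d))) ⁻¹' B) = volume B :=
    hsl.measure_preimage hBm.nullMeasurableSet
  set S : Set (ℝ ∙ θ)ᗮ := {y | (y : EuclideanSpace ℝ (Fin d)) ∈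
    {x : EuclideanSpace ℝ (Fin d) | (∀ j, |x j| ≤ s) ∧ s * (3 / 4 * d) ≤ ∑ j, ε j * x j}} with hS
  have hsub : (Icc 0 s) ×ˢ S ⊆ ((fun p : ℝ × (ℝ ∙ θ)ᗮ =>
      p.1 • θ + (p.2 : EuclideanSpace ℝ (Fin d))) ⁻¹' B) := by
    rintro ⟨t, y⟩ ⟨ht, hy1, hy2⟩
    simp only [mem_Icc] at ht
    simp only [hB, hA, mem_preimage, mem_ofPred_eq, PiLp.add_apply, PiLp.smul_apply, smul_eq_mul]
    constructor
    · intro j
      calc |t * θ j + (y : EuclideanSpace ℝ (Fin d)) j| ≤ |t * θ j| + |(y : EuclideanSpace ℝ (Fin d)) j| :=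
            abs_add_le _ _
        _ ≤ s * |θ j| + s := by
            rw [abs_mul, abs_of_nonneg ht.1]
            have := hy1 j
            have h2 := abs_nonneg (θ j)
            nlinarith [ht.2]
        _ = _ := by ring
    · have h1 : ∑ j, ε j * (t * θ j + (y : EuclideanSpace ℝ (Fin d)) j) =
          t * ∑ j, ε j * θ j + ∑ j, ε j * (y : EuclideanSpace ℝ (Fin d)) j := by
        rw [Finset.mul_sum, ← Finset.sum_add_distrib]
        exact Finset.sum_congr rfl fun j _ => by ring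
      rw [h1]
      have h2 : |∑ j, ε j * θ j| ≤ √d := by
        calc |∑ j, ε j * θ j| ≤ ∑ j, |ε j * θ j| := Finset.abs_sum_le_sum_abs _ _
          _ = ∑ j, |θ j| := Finset.sum_congr rfl fun j _ => by
              rw [abs_mul]; rcases hε j with h | h <;> rw [h] <;> simp
          _ ≤ _ := hθ1
      have h3 := (abs_le.mp h2).1
      have h4 : 0 ≤ √(d:ℝ) := Real.sqrt_nonneg _
      nlinarith [ht.1, ht.2]
  calc ENNReal.ofReal s * sec _ θ = volume (Icc 0 s) * volume S := by
        rw [Real.volume_Icc, sub_zero]; rfl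
    _ = ((volume : Measure ℝ).prod volume) ((Icc 0 s) ×ˢ S) := (Measure.prod_prod _ _).symm
    _ ≤ _ := measure_mono hsub
    _ = volume A := by rw [hpre, hvB]
    _ ≤ _ := box_bound _ hθ1 s hs ε hε

end Pool.Agent.H892R2.Tomo
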