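import Mathlib
import Pool.Agent.H892R2.Tomo.Facet
import Pool.Agent.H892R2.Tomo.SecBound

set_option autoImplicit false

open Set Module MeasureTheory
open scoped RealInnerProductSpace ENNReal Pointwise

namespace Pool.Agent.H892R2.Tomo

variable {d : ℕ} {ι : Type*}

/-- the cube of half side `s` truncated by the slabs `|⟨W a, x⟩| ≤ 3/4 s d` -/
def KK (s : ℝ) (W : ι → Fin d → ℝ) : Set (EuclideanSpace ℝ (Fin d)) :=
  {x | (∀ j, |x j| ≤ s) ∧ ∀ a, |∑ j, W a j * x j| ≤ s * (3 / 4 * d)}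

/-- normals -/
noncomputable def nv (W : ι → Fin d → ℝ) : (Fin d ⊕ ι) × Bool → EuclideanSpace ℝ (Fin d)
  | (Sum.inl j, σ) => (if σ then (1:ℝ) else -1) • EuclideanSpace.single j (1:ℝ)
  | (Sum.inr a, σ) => (if σ then (1:ℝ) else -1) • WithLp.toLp 2 (W a)

/-- right hand sides -/
noncomputable def nb (s : ℝ) (ι : Type*) (d : ℕ) : (Fin d ⊕ ι) × Bool → ℝ
  | (Sum.inl _, _) => s
  | (Sum.inr _, _) => s * (3 / 4 * d)

theorem KK_eq (s : ℝ) (W : ι → Fin d → ℝ) :
    KK s W = {x | ∀ k, ⟪nv W k, x⟫ ≤ nb s ι d k} := by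
  have e1 : ∀ (j : Fin d) (x : EuclideanSpace ℝ (Fin d)),
      ⟪EuclideanSpace.single j (1:ℝ), x⟫ = x j := by
    intro j x; simp [EuclideanSpace.inner_single_left]
  have e2 : ∀ (a : ι) (x : EuclideanSpace ℝ (Fin d)),
      ⟪WithLp.toLp 2 (W a), x⟫ = ∑ j, W a j * x j := by
    intro a x
    simp [PiLp.inner_apply, mul_comm]
  ext x
  simp only [KK, mem_ofPred_eq]
  constructor
  · rintro ⟨h1, h2⟩ ⟨k | a, σ⟩
    · have := abs_le.mp (h1 k)
      cases σ
      · simp only [nv, nb, inner_smul_left, e1]; simp; linarith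
      · simp only [nv, nb, inner_smul_left, e1]; simp; linarith
    · have := abs_le.mp (h2 a)
      cases σ
      · simp only [nv, nb, inner_smul_left, e2]; simp; linarith
      · simp only [nv, nb, inner_smul_left, e2]; simp; linarith
  · intro h
    constructor
    · intro j
      have h1 := h (Sum.inl j, true)
      have h2 := h (Sum.inl j, false)
      simp only [nv, nb, inner_smul_left, e1] at h1 h2
      simp at h1 h2
      exact abs_le.mpr ⟨by linarith, h1⟩
    · intro a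
      have h1 := h (Sum.inr a, true)
      have h2 := h (Sum.inr a, false)
      simp only [nv, nb, inner_smul_left, e2] at h1 h2
      simp at h1 h2
      exact abs_le.mpr ⟨by linarith, h1⟩

theorem nv_ne_zero (hd : 0 < d) (W : ι → Fin d → ℝ) (hW : ∀ a j, W a j ≠ 0)
    (k : (Fin d ⊕ ι) × Bool) : nv W k ≠ 0 := by
  have hs : ∀ σ : Bool, (if σ then (1:ℝ) else -1) ≠ 0 := by
    intro σ; cases σ <;> simp
  rcases k with ⟨j | a, σ⟩
  · simp only [nv]
    refine smul_ne_zero (hs σ) ?_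
    intro h
    have := congrArg (fun v : EuclideanSpace ℝ (Fin d) => v j) h
    simp at this
  · simp only [nv]
    refine smul_ne_zero (hs σ) ?_
    intro h
    have := congrArg (fun v : EuclideanSpace ℝ (Fin d) => v ⟨0, hd⟩) h
    simp at this
    exact hW a _ this

theorem KK_closed (s : ℝ) (W : ι → Fin d → ℝ) : IsClosed (KK s W) := by
  rw [KK_eq]
  have : {x : EuclideanSpace ℝ (Fin d) | ∀ k, ⟪nv W k, x⟫ ≤ nb s ι d k} =
      ⋂ k, {x | ⟪nv W k, x⟫ ≤ nb s ι d k} := by ext; simp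
  rw [this]
  exact isClosed_iInter fun k => isClosed_le (by fun_prop) (by fun_prop)

theorem norm_le_of_coord {s : ℝ} (hs : 0 ≤ s) {x : EuclideanSpace ℝ (Fin d)}
    (h : ∀ j, |x j| ≤ s) : ‖x‖ ≤ s * √d := by
  rw [EuclideanSpace.norm_eq]
  calc √(∑ i, ‖x i‖ ^ 2) ≤ √(∑ i : Fin d, s ^ 2) := by
        apply Real.sqrt_le_sqrt
        apply Finset.sum_le_sum
        intro i _
        rw [Real.norm_eq_abs]
        have := h i
        have := abs_nonneg (x i)
        nlinarith
    _ = _ := by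
        simp only [Finset.sum_const, Finset.card_univ, Fintype.card_fin, nsmul_eq_mul]
        rw [Real.sqrt_mul (by positivity), Real.sqrt_sq hs, mul_comm]

theorem KK_bdd {s : ℝ} (hs : 0 ≤ s) (W : ι → Fin d → ℝ) : Bornology.IsBounded (KK s W) := by
  rw [Metric.isBounded_iff_subset_closedBall 0]
  exact ⟨s * √d, fun x hx => by
    rw [mem_closedBall_zero_iff]; exact norm_le_of_coord hs hx.1⟩

theorem KK_compact {s : ℝ} (hs : 0 ≤ s) (W : ι → Fin d → ℝ) : IsCompact (KK s W) :=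
  Metric.isCompact_of_isClosed_isBounded (KK_closed s W) (KK_bdd hs W)

/-- small cube inside -/
theorem box_sub {s : ℝ} (hs : 0 ≤ s) (W : ι → Fin d → ℝ) (hW : ∀ a j, |W a j| = 1) :
    {x : EuclideanSpace ℝ (Fin d) | ∀ j, |x j| ≤ 3 / 4 * s} ⊆ KK s W := by
  intro x hx
  refine ⟨fun j => (hx j).trans (by linarith), fun a => ?_⟩
  calc |∑ j, W a j * x j| ≤ ∑ j, |W a j * x j| := Finset.abs_sum_le_sum_abs _ _
    _ ≤ ∑ j : Fin d, 3 / 4 * s := by
        apply Finset.sum_le_sum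
        intro j _
        rw [abs_mul, hW, one_mul]
        exact hx j
    _ = _ := by simp; ring

theorem ball_sub {s : ℝ} (hs : 0 < s) (W : ι → Fin d → ℝ) (hW : ∀ a j, |W a j| = 1) :
    Metric.ball (0 : EuclideanSpace ℝ (Fin d)) (3 / 4 * s) ⊆ KK s W := by
  refine Subset.trans ?_ (box_sub hs.le W hW)
  intro x hx j
  rw [mem_ball_zero_iff] at hx
  have := PiLp.norm_apply_le x j
  rw [Real.norm_eq_abs] at this
  linarith

theorem KK_interior {s : ℝ} (hs : 0 < s) (W : ι → Fin d → ℝ) (hW : ∀ a j, |W a j| = 1) :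
    (interior (KK s W)).Nonempty :=
  ⟨0, mem_interior.mpr ⟨_, ball_sub hs W hW, Metric.isOpen_ball, by
    simp; linarith⟩⟩

theorem KK_symm (s : ℝ) (W : ι → Fin d → ℝ) : KK s W = -KK s W := by
  ext x
  simp only [KK, mem_ofPred_eq, Set.mem_neg, PiLp.neg_apply, abs_neg, mul_neg,
    Finset.sum_neg_distrib]

/-- lower bound for the volume -/
theorem vol_lower {s : ℝ} (hs : 0 < s) (W : ι → Fin d → ℝ) (hW : ∀ a j, |W a j| = 1) :
    ENNReal.ofReal ((3 / 2 * s) ^ d) ≤ volume (KK s W) := by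
  have h1 : volume {x : EuclideanSpace ℝ (Fin d) | ∀ j, |x j| ≤ 3 / 4 * s} =
      ENNReal.ofReal ((3 / 2 * s) ^ d) := by
    have h2 : {x : EuclideanSpace ℝ (Fin d) | ∀ j, |x j| ≤ 3 / 4 * s} =
        WithLp.ofLp ⁻¹' (Icc (fun _ : Fin d => -(3 / 4 * s)) (fun _ => 3 / 4 * s)) := by
      ext x
      simp only [mem_ofPred_eq, mem_preimage, mem_Icc, Pi.le_def, abs_le]
      exact ⟨fun h => ⟨fun i => (h i).1, fun i => (h i).2⟩, fun h i => ⟨h.1 i, h.2 i⟩⟩
    rw [h2, (PiLp.volume_preserving_ofLp (Fin d)).measure_preimage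
      measurableSet_Icc.nullMeasurableSet, Real.volume_Icc_pi]
    simp only [Finset.prod_const, Finset.card_univ, Fintype.card_fin]
    rw [← ENNReal.ofReal_pow (by linarith)]
    congr 2
    ring
  rw [← h1]
  exact measure_mono (box_sub hs.le W hW)

/-- The cube -/
def CC (s : ℝ) : Set (EuclideanSpace ℝ (Fin d)) := {x | ∀ j, |x j| ≤ s}

theorem sec_mono {P Q : Set (EuclideanSpace ℝ (Fin d))} (h : P ⊆ Q)
    (θ : EuclideanSpace ℝ (Fin d)) : sec P θ ≤ sec Q θ := measure_mono fun _ hy => h hy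

theorem sec_fin {P : Set (EuclideanSpace ℝ (Fin d))} (hP : Bornology.IsBounded P)
    (θ : EuclideanSpace ℝ (Fin d)) : sec P θ < ⊤ := by
  have : Bornology.IsBounded {y : (ℝ ∙ θ)ᗮ | (y : EuclideanSpace ℝ (Fin d)) ∈ P} := by
    obtain ⟨R, hR⟩ := hP.subset_closedBall 0
    rw [Metric.isBounded_iff_subset_closedBall 0]
    refine ⟨R, fun y hy => ?_⟩
    have := hR hy
    rw [mem_closedBall_zero_iff] at this ⊢
    exact this
  exact this.measure_lt_top

theorem sec_union_le (P Q : Set (EuclideanSpace ℝ (Fin d)))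
    (θ : EuclideanSpace ℝ (Fin d)) : sec (P ∪ Q) θ ≤ sec P θ + sec Q θ := measure_union_le _ _

/-- The error. -/
noncomputable def err (ι : Type*) [Fintype ι] (s : ℝ) (d : ℕ) : ℝ :=
  2 * Fintype.card ι * (s ^ d * (Real.exp (d + 8 * √d) / 4 ^ d))

theorem err_nonneg [Fintype ι] {s : ℝ} (hs : 0 ≤ s) : 0 ≤ err ι s d := by
  unfold err; positivity

theorem sec_cut [Fintype ι] {s : ℝ} (hs : 0 < s) (W : ι → Fin d → ℝ)
    (hW : ∀ a j, W a j = 1 ∨ W a j = -1)
    (θ : EuclideanSpace ℝ (Fin d)) (hθ : ‖θ‖ = 1) :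
    ENNReal.ofReal s * sec (CC s) θ ≤
      ENNReal.ofReal s * sec (KK s W) θ + ENNReal.ofReal (err ι s d) := by
  have hsub : (CC s : Set (EuclideanSpace ℝ (Fin d))) ⊆ KK s W ∪ ⋃ p : ι × Bool,
      {x | (∀ j, |x j| ≤ s) ∧ s * (3 / 4 * d) ≤
        ∑ j, ((if p.2 then (1:ℝ) else -1) * W p.1 j) * x j} := by
    intro x hx
    by_cases h : x ∈ KK s W
    · exact Or.inl h
    · right
      have h1 : ∃ a, ¬ |∑ j, W a j * x j| ≤ s * (3 / 4 * d) := by
        by_contra h2
        push Not at h2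
        exact h ⟨hx, h2⟩
      obtain ⟨a, ha⟩ := h1
      rw [not_le, lt_abs] at ha
      rcases ha with ha | ha
      · refine mem_iUnion.mpr ⟨(a, true), hx, ?_⟩
        simp only [if_true, one_mul]
        exact ha.le
      · refine mem_iUnion.mpr ⟨(a, false), hx, ?_⟩
        simp only [Bool.false_eq_true, if_false, neg_mul, one_mul, Finset.sum_neg_distrib]
        exact ha.le
  have h2 : ∀ p : ι × Bool, ENNReal.ofReal s * sec {x : EuclideanSpace ℝ (Fin d) |
      (∀ j, |x j| ≤ s) ∧ s * (3 / 4 * d) ≤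
        ∑ j, ((if p.2 then (1:ℝ) else -1) * W p.1 j) * x j} θ ≤
      ENNReal.ofReal (s ^ d * (Real.exp (d + 8 * √d) / 4 ^ d)) := by
    intro p
    refine sec_bound θ hθ s hs (fun j => (if p.2 then (1:ℝ) else -1) * W p.1 j) ?_
    intro j
    rcases hW p.1 j with h | h <;> cases p.2 <;> simp [h]
  calc ENNReal.ofReal s * sec (CC s) θ ≤ ENNReal.ofReal s * (sec (KK s W) θ + ∑ p : ι × Bool,
        sec {x : EuclideanSpace ℝ (Fin d) | (∀ j, |x j| ≤ s) ∧ s * (3 / 4 * d) ≤
        ∑ j, ((if p.2 then (1:ℝ) else -1) * W p.1 j) * x j} θ) := by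
        gcongr
        refine (sec_mono hsub θ).trans ((sec_union_le _ _ θ).trans ?_)
        gcongr
        refine le_trans ?_ (measure_iUnion_fintype_le _ _)
        apply le_of_eq
        unfold sec
        congr 1
        ext y
        simp
    _ ≤ _ := by
        rw [mul_add, Finset.mul_sum]
        gcongr
        calc _ ≤ ∑ p : ι × Bool, ENNReal.ofReal (s ^ d * (Real.exp (d + 8 * √d) / 4 ^ d)) :=
              Finset.sum_le_sum fun p _ => h2 p
          _ = _ := by
              rw [Finset.sum_const, Finset.card_univ, Fintype.card_prod, Fintype.card_bool,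
                nsmul_eq_mul]
              unfold err
              rw [ENNReal.ofReal_mul (p := 2 * (Fintype.card ι : ℝ)) (by positivity)]
              congr 1
              rw [ENNReal.ofReal_mul (by norm_num)]
              simp [mul_comm]

theorem sec_diff [Fintype ι] {s : ℝ} (hs : 0 < s) (W W' : ι → Fin d → ℝ)
    (hW : ∀ a j, W a j = 1 ∨ W a j = -1)
    (θ : EuclideanSpace ℝ (Fin d)) (hθ : ‖θ‖ = 1) :
    s * (sec (KK s W') θ).toReal ≤ s * (sec (KK s W) θ).toReal + err ι s d := by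
  have h1 : sec (KK s W') θ ≤ sec (CC s) θ := sec_mono (fun x hx => hx.1) θ
  have h2 : ENNReal.ofReal s * sec (KK s W') θ ≤
      ENNReal.ofReal s * sec (KK s W) θ + ENNReal.ofReal (err ι s d) :=
    (mul_le_mul_right h1 _).trans (sec_cut hs W hW θ hθ)
  have hf : sec (KK s W) θ ≠ ⊤ := (sec_fin (KK_bdd hs.le W) θ).ne
  have hf' : sec (KK s W') θ ≠ ⊤ := (sec_fin (KK_bdd hs.le W') θ).ne
  have h3 := ENNReal.toReal_mono (by
    exact ENNReal.add_ne_top.mpr ⟨ENNReal.mul_ne_top ENNReal.ofReal_ne_top hf,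
      ENNReal.ofReal_ne_top⟩) h2
  rw [ENNReal.toReal_add (ENNReal.mul_ne_top ENNReal.ofReal_ne_top hf) ENNReal.ofReal_ne_top,
    ENNReal.toReal_mul, ENNReal.toReal_mul, ENNReal.toReal_ofReal hs.le,
    ENNReal.toReal_ofReal (err_nonneg hs.le)] at h3
  exact h3

end Pool.Agent.H892R2.Tomo
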