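import Mathlib
import Pool.Agent.H892R2.Tomo.Body

set_option autoImplicit false

open Set Module MeasureTheory
open scoped RealInnerProductSpace ENNReal Pointwise

namespace Pool.Agent.H892R2.Tomo

variable {d : ℕ} {ι : Type*}

/-- isotropy: mean zero and identity covariance -/
def IsIsotropic (P : Set (EuclideanSpace ℝ (Fin d))) : Prop :=
  (⨍ x in P, x) = 0 ∧ ∀ i j, (⨍ x in P, x i * x j) = if i = j then 1 else 0

theorem mean_zero {P : Set (EuclideanSpace ℝ (Fin d))} (hP : P = -P) : ∫ x in P, x = 0 := by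
  have hneg : MeasurePreserving (fun x : EuclideanSpace ℝ (Fin d) => -x) volume volume :=
    Measure.measurePreserving_neg volume
  have hS : (fun x : EuclideanSpace ℝ (Fin d) => -x) ⁻¹' P = P := by
    conv_rhs => rw [hP]
    rfl
  have h1 := hneg.setIntegral_preimage_emb
    (MeasurableEquiv.neg (EuclideanSpace ℝ (Fin d))).measurableEmbedding
    (fun x => x) P
  rw [hS, integral_neg] at h1
  have h2 : (2 : ℝ) • ∫ x in P, x = 0 := by
    rw [two_smul]
    nth_rewrite 1 [← h1]
    simp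
  exact (smul_eq_zero.mp h2).resolve_left two_ne_zero

/-- second moments -/
noncomputable def mom (P : Set (EuclideanSpace ℝ (Fin d))) (i j : Fin d) : ℝ :=
  ∫ x in P, x i * x j

theorem mom_iso (g : EuclideanSpace ℝ (Fin d) ≃ₗᵢ[ℝ] EuclideanSpace ℝ (Fin d))
    {P Q : Set (EuclideanSpace ℝ (Fin d))} (h : g ⁻¹' P = Q) (i j : Fin d) :
    ∫ x in Q, (g x) i * (g x) j = mom P i j := by
  unfold mom
  rw [← h]
  exact g.measurePreserving.setIntegral_preimage_emb g.toHomeomorph.measurableEmbedding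
    (fun x => x i * x j) P

theorem vol_iso (g : EuclideanSpace ℝ (Fin d) ≃ₗᵢ[ℝ] EuclideanSpace ℝ (Fin d))
    {P Q : Set (EuclideanSpace ℝ (Fin d))} (h : g ⁻¹' P = Q) : volume Q = volume P := by
  rw [← h]
  exact g.measurePreserving.measure_preimage_emb g.toHomeomorph.measurableEmbedding P

/-- sign change isometry -/
noncomputable def sgn (ε : Fin d → Bool) :
    EuclideanSpace ℝ (Fin d) ≃ₗᵢ[ℝ] EuclideanSpace ℝ (Fin d) :=
  LinearIsometryEquiv.piLpCongrRight 2
    (fun i => if ε i then LinearIsometryEquiv.neg ℝ else LinearIsometryEquiv.refl ℝ ℝ)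

theorem sgn_apply (ε : Fin d → Bool) (x : EuclideanSpace ℝ (Fin d)) (i : Fin d) :
    sgn ε x i = (if ε i then -1 else 1) * x i := by
  unfold sgn
  rw [LinearIsometryEquiv.piLpCongrRight_apply]
  simp only
  by_cases h : ε i <;> simp [h]

/-- coordinate permutation isometry -/
noncomputable def prm (σ : Fin d ≃ Fin d) :
    EuclideanSpace ℝ (Fin d) ≃ₗᵢ[ℝ] EuclideanSpace ℝ (Fin d) :=
  LinearIsometryEquiv.piLpCongrLeft 2 ℝ ℝ σ

theorem prm_apply (σ : Fin d ≃ Fin d) (x : EuclideanSpace ℝ (Fin d)) (i : Fin d) :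
    prm σ x i = x (σ.symm i) := by
  unfold prm
  rw [LinearIsometryEquiv.piLpCongrLeft_apply]
  rfl

theorem KK_smul {s : ℝ} (hs : 0 < s) (W : ι → Fin d → ℝ) : KK s W = s • KK 1 W := by
  ext x
  rw [mem_smul_set_iff_inv_smul_mem₀ hs.ne']
  simp only [KK, mem_ofPred_eq, PiLp.smul_apply, smul_eq_mul, one_mul]
  have h1 : ∀ a, ∑ j, W a j * (s⁻¹ * x j) = s⁻¹ * ∑ j, W a j * x j := by
    intro a; rw [Finset.mul_sum]; exact Finset.sum_congr rfl fun j _ => by ring
  have h2 : ∀ y c : ℝ, |s⁻¹ * y| ≤ c ↔ |y| ≤ s * c := by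
    intro y c
    rw [abs_mul, abs_of_pos (inv_pos.mpr hs), inv_mul_le_iff₀ hs]
  simp only [h1, h2, mul_one]

theorem mom_smul {s : ℝ} (hs : 0 < s) (W : ι → Fin d → ℝ) (i j : Fin d) :
    mom (KK s W) i j = s ^ d * s ^ 2 * mom (KK 1 W) i j := by
  unfold mom
  have h := Measure.setIntegral_comp_smul_of_pos (volume : Measure (EuclideanSpace ℝ (Fin d)))
    (fun x => x i * x j) (KK 1 W) hs
  rw [← KK_smul hs, finrank_euclideanSpace_fin] at h
  simp only [PiLp.smul_apply, smul_eq_mul] at h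
  have h2 : ∫ x in KK 1 W, s * x i * (s * x j) = s ^ 2 * ∫ x in KK 1 W, x i * x j := by
    rw [← integral_const_mul]
    congr 1
    ext x; ring
  rw [h2] at h
  have h3 : (0:ℝ) < s ^ d := by positivity
  rw [mul_assoc, h]
  field_simp

theorem vol_smul {s : ℝ} (hs : 0 < s) (W : ι → Fin d → ℝ) :
    (volume (KK s W)).toReal = s ^ d * (volume (KK 1 W)).toReal := by
  rw [KK_smul hs, Measure.addHaar_smul, ENNReal.toReal_mul, finrank_euclideanSpace_fin,
    abs_of_pos (by positivity), ENNReal.toReal_ofReal (by positivity)]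

theorem vol_pos {s : ℝ} (hs : 0 < s) (W : ι → Fin d → ℝ) (hW : ∀ a j, |W a j| = 1) :
    0 < (volume (KK s W)).toReal := by
  have h1 := vol_lower hs W hW
  have h2 : (0:ℝ) < (3 / 2 * s) ^ d := by positivity
  have h3 := ENNReal.toReal_mono (KK_bdd hs.le W).measure_lt_top.ne h1
  rw [ENNReal.toReal_ofReal h2.le] at h3
  linarith

theorem mom_pos {s : ℝ} (hs : 0 < s) (W : ι → Fin d → ℝ) (hW : ∀ a j, |W a j| = 1)
    (i : Fin d) : 0 < mom (KK s W) i i := by
  unfold mom
  have hcont : Continuous fun x : EuclideanSpace ℝ (Fin d) => x i * x i := by fun_prop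
  have hint : IntegrableOn (fun x : EuclideanSpace ℝ (Fin d) => x i * x i) (KK s W) :=
    hcont.continuousOn.integrableOn_compact (KK_compact hs.le W)
  rw [setIntegral_pos_iff_support_of_nonneg_ae
    (Filter.Eventually.of_forall fun x => mul_self_nonneg _) hint]
  set U : Set (EuclideanSpace ℝ (Fin d)) := Metric.ball 0 (3 / 4 * s) ∩ {x | x i ≠ 0} with hU
  have hUo : IsOpen U := Metric.isOpen_ball.inter (by
    have : {x : EuclideanSpace ℝ (Fin d) | x i ≠ 0} = (fun x => x i) ⁻¹' {0}ᶜ := rfl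
    rw [this]
    exact isOpen_compl_singleton.preimage (by fun_prop))
  have hUne : U.Nonempty := by
    refine ⟨EuclideanSpace.single i (s / 2), ?_, ?_⟩
    · rw [mem_ball_zero_iff, PiLp.norm_single, Real.norm_eq_abs, abs_of_pos (by linarith)]
      linarith
    · simp [hs.ne']
  refine lt_of_lt_of_le (hUo.measure_pos volume hUne) (measure_mono ?_)
  intro x hx
  refine ⟨?_, ball_sub hs W hW hx.1⟩
  simp only [Function.mem_support]
  exact mul_ne_zero hx.2 hx.2

theorem mom_le (W : ι → Fin d → ℝ) (i : Fin d) :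
    mom (KK 1 W) i i ≤ (volume (KK 1 W)).toReal := by
  unfold mom
  have hcont : Continuous fun x : EuclideanSpace ℝ (Fin d) => x i * x i := by fun_prop
  have hint : IntegrableOn (fun x : EuclideanSpace ℝ (Fin d) => x i * x i) (KK 1 W) :=
    hcont.continuousOn.integrableOn_compact (KK_compact zero_le_one W)
  have hfin : volume (KK 1 W : Set (EuclideanSpace ℝ (Fin d))) ≠ ⊤ :=
    (KK_bdd zero_le_one W).measure_lt_top.ne
  calc ∫ x in KK 1 W, x i * x i ≤ ∫ x in KK 1 W, (1:ℝ) := by
        refine setIntegral_mono_on hint (integrableOn_const hfin) (KK_closed 1 W).measurableSet ?_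
        intro x hx
        have := abs_le.mp (hx.1 i)
        nlinarith [this.1, this.2]
    _ = _ := by simp [Measure.real]

end Pool.Agent.H892R2.Tomo
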