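import Mathlib
import Pool.Agent.H892R2.Tomo.Moments

set_option autoImplicit false

open Set Module MeasureTheory
open scoped RealInnerProductSpace ENNReal Pointwise

namespace Pool.Agent.H892R2.Tomo

/-- the sign character of `ZMod 2` -/
noncomputable def sg (z : ZMod 2) : ℝ := if z = 0 then 1 else -1

theorem sg_add (u v : ZMod 2) : sg (u + v) = sg u * sg v := by
  have h : ∀ u v : ZMod 2, (u + v = 0 ↔ (u = 0 ↔ v = 0)) := by decide
  unfold sg
  by_cases h1 : u = 0 <;> by_cases h2 : v = 0 <;> simp [h1, h2, h u v]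

theorem sg_cases (u : ZMod 2) : sg u = 1 ∨ sg u = -1 := by
  unfold sg; split_ifs <;> simp

theorem sg_sq (u : ZMod 2) : sg u * sg u = 1 := by
  rcases sg_cases u with h | h <;> rw [h] <;> norm_num

theorem sg_zero : sg 0 = 1 := by simp [sg]

theorem sg_one : sg 1 = -1 := by simp [sg]

/-- coding of coordinates -/
noncomputable def ee (k : ℕ) : Fin (2 ^ k) ≃ (Fin k → ZMod 2) :=
  (Fintype.equivFinOfCardEq (by simp [ZMod.card])).symm

/-- characters -/
noncomputable def chi {k : ℕ} (a : Fin k → ZMod 2) (j : Fin (2 ^ k)) : ℝ := sg (a ⬝ᵥ ee k j)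

theorem chi_cases {k : ℕ} (a : Fin k → ZMod 2) (j : Fin (2 ^ k)) :
    chi a j = 1 ∨ chi a j = -1 := sg_cases _

theorem chi_add {k : ℕ} (a b : Fin k → ZMod 2) (j : Fin (2 ^ k)) :
    chi (a + b) j = chi a j * chi b j := by
  unfold chi; rw [add_dotProduct, sg_add]

theorem chi_zero {k : ℕ} (j : Fin (2 ^ k)) : chi (0 : Fin k → ZMod 2) j = 1 := by
  unfold chi; rw [zero_dotProduct, sg_zero]

/-- translation of coordinates -/
noncomputable def tr {k : ℕ} (c : Fin k → ZMod 2) : Fin (2 ^ k) ≃ Fin (2 ^ k) :=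
  (ee k).trans ((Equiv.addRight c).trans (ee k).symm)

theorem ee_tr {k : ℕ} (c : Fin k → ZMod 2) (j : Fin (2 ^ k)) : ee k (tr c j) = ee k j + c := by
  simp [tr]

theorem chi_tr {k : ℕ} (a c : Fin k → ZMod 2) (j : Fin (2 ^ k)) :
    chi a (tr c j) = chi a j * sg (a ⬝ᵥ c) := by
  unfold chi; rw [ee_tr, dotProduct_add, sg_add]

theorem add_self' {k : ℕ} (c : Fin k → ZMod 2) : c + c = 0 := by
  ext i
  have h : ∀ z : ZMod 2, z + z = 0 := by decide
  exact h _

theorem tr_symm {k : ℕ} (c : Fin k → ZMod 2) : (tr c).symm = tr c := by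
  ext j
  congr 1
  rw [Equiv.symm_apply_eq]
  apply (ee k).injective
  rw [ee_tr, ee_tr, add_assoc, add_self', add_zero]

theorem tr_tr {k : ℕ} (c : Fin k → ZMod 2) (j : Fin (2 ^ k)) : tr c (tr c j) = j := by
  apply (ee k).injective
  rw [ee_tr, ee_tr, add_assoc, add_self', add_zero]

/-- orthogonality -/
theorem chi_sum {k : ℕ} (a : Fin k → ZMod 2) (ha : a ≠ 0) : ∑ j, chi a j = 0 := by
  obtain ⟨l, hl⟩ : ∃ l, a l ≠ 0 := by
    by_contra h
    push Not at h
    exact ha (funext h)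
  have hl1 : a l = 1 := by
    have h : ∀ z : ZMod 2, z ≠ 0 → z = 1 := by decide
    exact h _ hl
  have h1 : ∑ j, chi a j = ∑ j, chi a (tr (Pi.single l 1) j) :=
    (Equiv.sum_comp (tr (Pi.single l 1)) (chi a)).symm
  have h2 : ∀ j, chi a (tr (Pi.single l 1) j) = - chi a j := by
    intro j
    rw [chi_tr, dotProduct_single, hl1, mul_one, sg_one]
    ring
  simp only [h2, Finset.sum_neg_distrib] at h1
  linarith

theorem chi_sum_le {k : ℕ} (a : Fin k → ZMod 2) : |∑ j, chi a j| ≤ if a = 0 then (2:ℝ) ^ k else 0 := by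
  by_cases h : a = 0
  · rw [if_pos h, h]
    simp [chi_zero]
  · rw [if_neg h, chi_sum a h]
    simp

section bent

variable {k : ℕ} (i0 i1 : Fin k)

/-- the bent sign vector -/
noncomputable def bt (j : Fin (2 ^ k)) : ℝ :=
  if ee k j i0 = 1 ∧ ee k j i1 = 1 then -1 else 1

theorem bt_cases (j : Fin (2 ^ k)) : bt i0 i1 j = 1 ∨ bt i0 i1 j = -1 := by
  unfold bt; split_ifs <;> simp

theorem bt_formula (j : Fin (2 ^ k)) : bt i0 i1 j =
    (1 / 2) * (chi (0 : Fin k → ZMod 2) j + chi (Pi.single i0 1) j + chi (Pi.single i1 1) j -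
      chi (Pi.single i0 1 + Pi.single i1 1) j) := by
  rw [chi_add, chi_zero]
  unfold bt chi
  rw [single_dotProduct, single_dotProduct, one_mul, one_mul]
  have h : ∀ z : ZMod 2, z = 0 ∨ z = 1 := by decide
  rcases h (ee k j i0) with h0 | h0 <;> rcases h (ee k j i1) with h1 | h1 <;>
    rw [h0, h1] <;> simp [sg_zero, sg_one] <;> norm_num

theorem bt_corr (hne : i0 ≠ i1) (a : Fin k → ZMod 2) :
    |∑ j, chi a j * bt i0 i1 j| ≤ (1 / 2) * 2 ^ k := by
  have h1 : ∑ j, chi a j * bt i0 i1 j = (1 / 2) * (∑ j, chi a j + ∑ j, chi (a + Pi.single i0 1) j +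
      ∑ j, chi (a + Pi.single i1 1) j - ∑ j, chi (a + (Pi.single i0 1 + Pi.single i1 1)) j) := by
    rw [← Finset.sum_add_distrib, ← Finset.sum_add_distrib, ← Finset.sum_sub_distrib,
      Finset.mul_sum]
    refine Finset.sum_congr rfl fun j _ => ?_
    rw [bt_formula, chi_add a, chi_add a, chi_add a, chi_zero]
    ring
  have hz : ∀ c : Fin k → ZMod 2, a + c = 0 ↔ a = c := by
    intro c
    constructor
    · intro h
      have := congrArg (· + c) h
      simp only [add_assoc, add_self', add_zero, zero_add] at this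
      exact this
    · rintro rfl; exact add_self' _
  have h2 := chi_sum_le a
  have h3 := chi_sum_le (a + Pi.single i0 1)
  have h4 := chi_sum_le (a + Pi.single i1 1)
  have h5 := chi_sum_le (a + (Pi.single i0 1 + Pi.single i1 1))
  simp only [hz] at h3 h4 h5
  have n1 : (Pi.single i0 1 : Fin k → ZMod 2) ≠ 0 := by
    intro h; have := congrFun h i0; simp at this
  have n2 : (Pi.single i1 1 : Fin k → ZMod 2) ≠ 0 := by
    intro h; have := congrFun h i1; simp at this
  have n3 : (Pi.single i0 1 : Fin k → ZMod 2) ≠ Pi.single i1 1 := by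
    intro h; have := congrFun h i0
    rw [Pi.single_eq_same, Pi.single_eq_of_ne hne] at this
    simp at this
  have n4 : (Pi.single i0 1 + Pi.single i1 1 : Fin k → ZMod 2) ≠ 0 := by
    intro h; exact n3 (by
      have := congrArg (· + (Pi.single i1 1 : Fin k → ZMod 2)) h
      simpa only [add_assoc, add_self', add_zero, zero_add] using this)
  have n5 : (Pi.single i0 1 + Pi.single i1 1 : Fin k → ZMod 2) ≠ Pi.single i0 1 := by
    intro h; exact n2 (add_eq_left.mp h)
  have n6 : (Pi.single i0 1 + Pi.single i1 1 : Fin k → ZMod 2) ≠ Pi.single i1 1 := by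
    intro h; exact n1 (add_eq_right.mp h)
  have hpos : (0:ℝ) < 2 ^ k := by positivity
  rw [h1, abs_le]
  rw [abs_le] at h2 h3 h4 h5
  by_cases c1 : a = 0
  · rw [if_pos c1] at h2
    rw [if_neg (by rw [c1]; exact n1.symm)] at h3
    rw [if_neg (by rw [c1]; exact n2.symm)] at h4
    rw [if_neg (by rw [c1]; exact n4.symm)] at h5
    constructor <;> linarith [h2.1, h2.2, h3.1, h3.2, h4.1, h4.2, h5.1, h5.2]
  · rw [if_neg c1] at h2
    by_cases c2 : a = Pi.single i0 1
    · rw [if_pos c2] at h3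
      rw [if_neg (by rw [c2]; exact n3)] at h4
      rw [if_neg (by rw [c2]; exact n5.symm)] at h5
      constructor <;> linarith [h2.1, h2.2, h3.1, h3.2, h4.1, h4.2, h5.1, h5.2]
    · rw [if_neg c2] at h3
      by_cases c3 : a = Pi.single i1 1
      · rw [if_pos c3] at h4
        rw [if_neg (by rw [c3]; exact n6.symm)] at h5
        constructor <;> linarith [h2.1, h2.2, h3.1, h3.2, h4.1, h4.2, h5.1, h5.2]
      · rw [if_neg c3] at h4
        have h6 : (if a = Pi.single i0 1 + Pi.single i1 1 then (2:ℝ) ^ k else 0) ≤ 2 ^ k := by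
          split_ifs <;> linarith
        constructor <;> linarith [h2.1, h2.2, h3.1, h3.2, h4.1, h4.2, h5.1, h5.2]

end bent

/-- the first family -/
noncomputable def WP (k : ℕ) : (Fin k → ZMod 2) → Fin (2 ^ k) → ℝ := fun a j => chi a j

/-- the second family -/
noncomputable def WQ {k : ℕ} (i0 i1 : Fin k) : (Fin k → ZMod 2) → Fin (2 ^ k) → ℝ :=
  fun a j => chi a j * bt i0 i1 j

theorem WP_cases {k : ℕ} (a : Fin k → ZMod 2) (j : Fin (2 ^ k)) : WP k a j = 1 ∨ WP k a j = -1 :=
  chi_cases a j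

theorem WQ_cases {k : ℕ} (i0 i1 : Fin k) (a : Fin k → ZMod 2) (j : Fin (2 ^ k)) :
    WQ i0 i1 a j = 1 ∨ WQ i0 i1 a j = -1 := by
  unfold WQ
  rcases chi_cases a j with h | h <;> rcases bt_cases i0 i1 j with h' | h' <;> rw [h, h'] <;> simp

theorem abs_of_cases {x : ℝ} (h : x = 1 ∨ x = -1) : |x| = 1 := by
  rcases h with h | h <;> rw [h] <;> simp

/-- the sign isometry relating the two bodies -/
theorem sgn_bt {k : ℕ} (i0 i1 : Fin k) (s : ℝ) :
    (sgn (fun j => decide (bt i0 i1 j = -1))) ⁻¹' (KK s (WP k)) = KK s (WQ i0 i1) := by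
  have hb : ∀ j, (if decide (bt i0 i1 j = -1) then (-1:ℝ) else 1) = bt i0 i1 j := by
    intro j
    rcases bt_cases i0 i1 j with h | h <;> rw [h] <;> norm_num
  ext x
  simp only [mem_preimage, KK, mem_ofPred_eq, sgn_apply, hb]
  have h1 : ∀ j, |bt i0 i1 j * x j| = |x j| := by
    intro j; rw [abs_mul, abs_of_cases (bt_cases i0 i1 j), one_mul]
  have h2 : ∀ a, ∑ j, WP k a j * (bt i0 i1 j * x j) = ∑ j, WQ i0 i1 a j * x j := by
    intro a; refine Finset.sum_congr rfl fun j _ => ?_
    unfold WP WQ; ring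
  simp only [h1, h2]

/-- character sign changes preserve the first body -/
theorem sgn_chi {k : ℕ} (c : Fin k → ZMod 2) (s : ℝ) :
    (sgn (fun j => decide (chi c j = -1))) ⁻¹' (KK s (WP k)) = KK s (WP k) := by
  have hb : ∀ j, (if decide (chi c j = -1) then (-1:ℝ) else 1) = chi c j := by
    intro j
    rcases chi_cases c j with h | h <;> rw [h] <;> norm_num
  ext x
  simp only [mem_preimage, KK, mem_ofPred_eq, sgn_apply, hb]
  have h1 : ∀ j, |chi c j * x j| = |x j| := by
    intro j; rw [abs_mul, abs_of_cases (chi_cases c j), one_mul]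
  have h2 : ∀ a, ∑ j, WP k a j * (chi c j * x j) = ∑ j, WP k (a + c) j * x j := by
    intro a; refine Finset.sum_congr rfl fun j _ => ?_
    unfold WP; rw [chi_add]; ring
  simp only [h1, h2]
  constructor
  · rintro ⟨h3, h4⟩
    refine ⟨h3, fun a => ?_⟩
    have := h4 (a + c)
    rwa [add_assoc, add_self', add_zero] at this
  · rintro ⟨h3, h4⟩
    exact ⟨h3, fun a => h4 _⟩

/-- coordinate translations preserve the first body -/
theorem prm_tr {k : ℕ} (c : Fin k → ZMod 2) (s : ℝ) :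
    (prm (tr c)) ⁻¹' (KK s (WP k)) = KK s (WP k) := by
  ext x
  simp only [mem_preimage, KK, mem_ofPred_eq, prm_apply, tr_symm]
  have h2 : ∀ a, |∑ j, WP k a j * x (tr c j)| = |∑ j, WP k a j * x j| := by
    intro a
    have h3 : ∑ j, WP k a j * x (tr c j) = ∑ j, WP k a (tr c j) * x j := by
      rw [← Equiv.sum_comp (tr c) (fun j => WP k a (tr c j) * x j)]
      refine Finset.sum_congr rfl fun j _ => ?_
      rw [tr_tr]
    rw [h3]
    have h4 : ∑ j, WP k a (tr c j) * x j = sg (a ⬝ᵥ c) * ∑ j, WP k a j * x j := by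
      rw [Finset.mul_sum]
      refine Finset.sum_congr rfl fun j _ => ?_
      unfold WP; rw [chi_tr]; ring
    rw [h4, abs_mul, abs_of_cases (sg_cases _), one_mul]
  simp only [h2]
  constructor
  · rintro ⟨h3, h4⟩
    refine ⟨fun j => ?_, h4⟩
    have := h3 ((tr c).symm j)
    rwa [tr_symm, tr_tr] at this
  · rintro ⟨h3, h4⟩
    exact ⟨fun j => h3 _, h4⟩

theorem mom_off {k : ℕ} (s : ℝ) {i j : Fin (2 ^ k)} (hij : i ≠ j) :
    mom (KK s (WP k)) i j = 0 := by
  have hne : ee k i ≠ ee k j := fun h => hij ((ee k).injective h)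
  obtain ⟨l, hl⟩ : ∃ l, ee k i l ≠ ee k j l := by
    by_contra h
    push Not at h
    exact hne (funext h)
  have h1 := mom_iso (sgn (fun j => decide (chi (Pi.single l 1 : Fin k → ZMod 2) j = -1)))
    (sgn_chi (Pi.single l 1) s) i j
  have hb : ∀ j, (if decide (chi (Pi.single l 1 : Fin k → ZMod 2) j = -1) then (-1:ℝ) else 1) =
      chi (Pi.single l 1 : Fin k → ZMod 2) j := by
    intro j
    rcases chi_cases (Pi.single l 1 : Fin k → ZMod 2) j with h | h <;> rw [h] <;> norm_num
  simp only [sgn_apply, hb] at h1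
  have h2 : chi (Pi.single l 1 : Fin k → ZMod 2) i * chi (Pi.single l 1 : Fin k → ZMod 2) j = -1 := by
    unfold chi
    rw [single_dotProduct, single_dotProduct, one_mul, one_mul]
    have h : ∀ z w : ZMod 2, z ≠ w → (z = 0 ∧ w = 1) ∨ (z = 1 ∧ w = 0) := by decide
    rcases h _ _ hl with ⟨h3, h4⟩ | ⟨h3, h4⟩ <;> rw [h3, h4, sg_zero, sg_one] <;> norm_num
  have h3 : ∀ x : EuclideanSpace ℝ (Fin (2 ^ k)),
      chi (Pi.single l 1 : Fin k → ZMod 2) i * x i * (chi (Pi.single l 1 : Fin k → ZMod 2) j * x j) =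
      -(x i * x j) := by
    intro x
    calc _ = (chi (Pi.single l 1 : Fin k → ZMod 2) i * chi (Pi.single l 1 : Fin k → ZMod 2) j) *
          (x i * x j) := by ring
      _ = _ := by rw [h2]; ring
  simp only [h3, integral_neg] at h1
  have h4 : ∫ x in KK s (WP k), x i * x j = mom (KK s (WP k)) i j := rfl
  rw [h4] at h1
  linarith

theorem mom_diag {k : ℕ} (s : ℝ) (i j : Fin (2 ^ k)) :
    mom (KK s (WP k)) i i = mom (KK s (WP k)) j j := by
  have h1 := mom_iso (prm (tr (ee k i + ee k j))) (prm_tr (ee k i + ee k j) s) j j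
  simp only [prm_apply, tr_symm] at h1
  have h2 : tr (ee k i + ee k j) j = i := by
    apply (ee k).injective
    rw [ee_tr, add_comm (ee k i), ← add_assoc, add_self', zero_add]
  rw [h2] at h1
  exact h1

theorem momQ {k : ℕ} (i0 i1 : Fin k) (s : ℝ) (i j : Fin (2 ^ k)) :
    mom (KK s (WQ i0 i1)) i j = if i = j then mom (KK s (WP k)) i i else 0 := by
  have h1 := mom_iso (sgn (fun j => decide (bt i0 i1 j = -1))) (sgn_bt i0 i1 s) i j
  have hb : ∀ j, (if decide (bt i0 i1 j = -1) then (-1:ℝ) else 1) = bt i0 i1 j := by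
    intro j
    rcases bt_cases i0 i1 j with h | h <;> rw [h] <;> norm_num
  simp only [sgn_apply, hb] at h1
  have h3 : ∀ x : EuclideanSpace ℝ (Fin (2 ^ k)),
      bt i0 i1 i * x i * (bt i0 i1 j * x j) = (bt i0 i1 i * bt i0 i1 j) * (x i * x j) := by
    intro x; ring
  simp only [h3, integral_const_mul] at h1
  have h4 : ∫ x in KK s (WQ i0 i1), x i * x j = mom (KK s (WQ i0 i1)) i j := rfl
  rw [h4] at h1
  have hsq : ∀ j, bt i0 i1 j * bt i0 i1 j = 1 := by
    intro j; rcases bt_cases i0 i1 j with h | h <;> rw [h] <;> norm_num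
  by_cases hij : i = j
  · subst hij
    rw [if_pos rfl, ← h1, hsq, one_mul]
  · rw [if_neg hij]
    rw [mom_off s hij] at h1
    rcases mul_eq_zero.mp h1 with h | h
    · exfalso
      rcases mul_eq_zero.mp h with h | h
      · have := hsq i; rw [h] at this; norm_num at this
      · have := hsq j; rw [h] at this; norm_num at this
    · exact h

theorem momP {k : ℕ} (s : ℝ) (i j : Fin (2 ^ k)) :
    mom (KK s (WP k)) i j = if i = j then mom (KK s (WP k)) i i else 0 := by
  by_cases hij : i = j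
  · subst hij; rw [if_pos rfl]
  · rw [if_neg hij, mom_off s hij]

theorem volQ {k : ℕ} (i0 i1 : Fin k) (s : ℝ) :
    volume (KK s (WQ i0 i1)) = volume (KK s (WP k)) :=
  vol_iso (sgn (fun j => decide (bt i0 i1 j = -1))) (sgn_bt i0 i1 s)

/-- the normalising scale -/
noncomputable def scl (k : ℕ) : ℝ :=
  √((volume (KK 1 (WP k))).toReal / mom (KK 1 (WP k)) ⟨0, by positivity⟩ ⟨0, by positivity⟩)

theorem WP_abs (k : ℕ) : ∀ a j, |WP k a j| = 1 := fun a j => abs_of_cases (WP_cases a j)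

theorem WQ_abs {k : ℕ} (i0 i1 : Fin k) : ∀ a j, |WQ i0 i1 a j| = 1 :=
  fun a j => abs_of_cases (WQ_cases i0 i1 a j)

theorem scl_ge (k : ℕ) : 1 ≤ scl k := by
  unfold scl
  rw [Real.one_le_sqrt, one_le_div (mom_pos one_pos (WP k) (WP_abs k) _)]
  exact mom_le _ _

theorem scl_sq (k : ℕ) : scl k ^ 2 * mom (KK 1 (WP k)) ⟨0, by positivity⟩ ⟨0, by positivity⟩ =
    (volume (KK 1 (WP k))).toReal := by
  have h1 := mom_pos one_pos (WP k) (WP_abs k) ⟨0, by positivity⟩
  have h2 := vol_pos one_pos (WP k) (WP_abs k)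
  unfold scl
  rw [Real.sq_sqrt (by positivity)]
  field_simp

theorem iso_of {k : ℕ} {W : (Fin k → ZMod 2) → Fin (2 ^ k) → ℝ}
    (hv : (volume (KK (scl k) W)).toReal = (volume (KK (scl k) (WP k))).toReal)
    (hm : ∀ i j, mom (KK (scl k) W) i j = if i = j then mom (KK (scl k) (WP k)) i i else 0) :
    IsIsotropic (KK (scl k) W) := by
  have hs : 0 < scl k := lt_of_lt_of_le one_pos (scl_ge k)
  constructor
  · rw [setAverage_eq, mean_zero (KK_symm _ _), smul_zero]
  · intro i j
    rw [setAverage_eq, smul_eq_mul]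
    have h1 : ∫ x in KK (scl k) W, x i * x j = mom (KK (scl k) W) i j := rfl
    rw [h1, hm]
    by_cases hij : i = j
    · rw [if_pos hij, if_pos hij, Measure.real, hv]
      rw [mom_smul hs, vol_smul hs, mom_diag 1 i ⟨0, by positivity⟩, mul_assoc, scl_sq]
      have h2 := vol_pos one_pos (WP k) (WP_abs k)
      have h3 : 0 < scl k ^ 2 ^ k := by positivity
      field_simp
    · rw [if_neg hij, if_neg hij, mul_zero]

theorem isoP (k : ℕ) : IsIsotropic (KK (scl k) (WP k)) := iso_of rfl (momP _)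

theorem isoQ {k : ℕ} (i0 i1 : Fin k) : IsIsotropic (KK (scl k) (WQ i0 i1)) :=
  iso_of (by rw [volQ]) (momQ i0 i1 _)

end Pool.Agent.H892R2.Tomo
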